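import Mathlib
import Pool.Agent.H13.LSP.Classes
import Pool.Agent.H13.LSP.Defs
import Pool.Agent.H13.LSP.Correct
import Pool.Agent.H13.LSP.PTAlgo
import Pool.Agent.H13.LSP.DecPT
import Pool.Agent.H60.Prune

/-!
# Largest simplices in parallelotopes

The conjecture that for all functions `γ` with `1 ≤ γ(n) ≤ n` the problem `Π_γ` (find a largest
`γ(n)`-simplex in an `n`-dimensional parallelotope given by inequalities) is NP-hard fails for
`γ(n) = n`, unless `P = NP` (decision version, many-one reductions) or `NP ⊆ P/poly` (decision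
version or search version, Turing reductions).  The first version of the conjecture is equivalent to
`P = NP`.

All definitions are in `Pool/Agent/H13/LSP/Defs.lean` and `Pool/Agent/H13/LSP/Classes.lean`.  Model of
computation: `Pool/Agent/H7/Comp/Model.lean` (while-programs over binary trees); polynomial-time
functions: `PT` in `Pool/Agent/H7/Comp/PT.lean`; binary encodings of integers and rational numbers:
`Pool/Agent/H99/BinDet/EncInt.lean`.
-/

set_option autoImplicit false

namespace Pool.Agent.Results.MP_4249f6_lc.ParallelotopeNPHard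

open Pool.Agent.H7.Comp Pool.Agent.H13.LSP Pool.Agent.H99.BinDet

/-- The unit interval with threshold `q`. -/
def interval (q : ℚ) : Inst := (1, [([1], 1), ([-1], 0)], q)

lemma poly_interval (q : ℚ) : poly (interval q) = cube 1 := by
  ext x
  show (∀ r ∈ rows (interval q), ∑ j : Fin 1, ((r.1.getD j 0 : ℚ) : ℝ) * x j ≤ ((r.2 : ℚ) : ℝ)) ↔
    ∀ i : Fin 1, 0 ≤ x i ∧ x i ≤ 1
  simp only [rows, interval, List.mem_cons, List.not_mem_nil, or_false, forall_eq_or_imp,
    forall_eq, Fin.sum_univ_one, Fin.forall_fin_one]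
  norm_num
  exact and_comm

lemma valid_interval {q : ℚ} (hq : 0 < q) : Valid (interval q) := by
  refine ⟨le_rfl, ?_, ?_, hq⟩
  · intro r hr
    simp only [rows, interval, List.mem_cons, List.not_mem_nil, or_false] at hr
    rcases hr with rfl | rfl <;> rfl
  · rw [poly_interval]
    refine ⟨1, 0, by rw [Matrix.det_one]; exact one_ne_zero, ?_⟩
    have : (fun t : Fin 1 → ℝ => 0 + Matrix.mulVec 1 t) = id := by
      funext t
      rw [Matrix.one_mulVec, zero_add]
      rfl
    exact ((congrArg (fun g => g '' cube 1) this).trans (Set.image_id _)).symm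

lemma measureSq_one (p : Fin 2 → Fin 1 → ℝ) : measureSq (n := 1) (j := 1) p = (p 1 0 - p 0 0) ^ 2 := by
  rw [measureSq_eq, Matrix.det_unique]
  rfl

lemma hasSimplex_one : HasSimplex (cube 1) 1 1 := by
  refine ⟨![fun _ => 0, fun _ => 1], affineIndependent_of_ne ℝ ?_,
    convexHull_min ?_ (convex_cube 1), ?_⟩
  · intro h
    have := congrFun h 0
    simp at this
  · rintro _ ⟨i, rfl⟩
    fin_cases i <;> intro j <;> simp
  · rw [measureSq_one]
    simp

lemma not_hasSimplex_two : ¬ HasSimplex (cube 1) 1 2 := by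
  rintro ⟨p, _, h2, h3⟩
  have h0 := h2 (subset_convexHull ℝ _ (Set.mem_range_self 0)) 0
  have h1 := h2 (subset_convexHull ℝ _ (Set.mem_range_self 1)) 0
  rw [measureSq_one] at h3
  nlinarith [h0.1, h0.2, h1.1, h1.2]

lemma yes_interval (γ : ℕ → ℕ) (hγ : γ 1 = 1) : Yes γ (interval 1) := by
  show HasSimplex (poly (interval 1)) (γ 1) (((1 : ℚ)) : ℝ)
  rw [poly_interval, hγ]
  have e : (((1 : ℚ)) : ℝ) = 1 := by norm_num
  rw [e]
  exact hasSimplex_one

lemma not_yes_interval (γ : ℕ → ℕ) (hγ : γ 1 = 1) : ¬ Yes γ (interval 2) := by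
  show ¬ HasSimplex (poly (interval 2)) (γ 1) (((2 : ℚ)) : ℝ)
  rw [poly_interval, hγ]
  intro h
  refine not_hasSimplex_two ?_
  have e : (((2 : ℚ)) : ℝ) = 2 := by norm_num
  rw [e] at h
  exact h

theorem result :
    (NPHard (fun n => n) → ∀ L, InNP L → InP L) ∧
    ((∀ γ : ℕ → ℕ, (∀ n, 1 ≤ n → 1 ≤ γ n ∧ γ n ≤ n) → NPHard γ) ↔ ∀ L, InP L ↔ InNP L) ∧
    (TuringHard (Solves (fun n => n)) → ∀ L, InNP L → InPpoly L) ∧
    (TuringHard (Decides (fun n => n)) → ∀ L, InNP L → InPpoly L) := by
  have h1 : NPHard (fun n => n) → ∀ L, InNP L → InP L := by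
    intro hard
    exact Pool.Agent.H60.Prune.prune Valid (Yes (fun n => n)) dim (pt_dim PT.id) selLe pt_selLe
      (fun I J hI hJ hd => selLe_spec I J hI hJ hd) hard
  refine ⟨h1, ⟨fun h L => ⟨InP.inNP, h1 (h _ (fun n hn => ⟨hn, le_rfl⟩)) L⟩, fun h γ hγ => ?_⟩,
    fun h L hL => ppoly_of_Sopt (h Sopt Sopt_solves L hL),
    fun h L hL => ppoly_of_Dopt (h Dopt Dopt_decides L hL)⟩
  have hγ1 : γ 1 = 1 := by have := hγ 1 le_rfl; omega
  intro L hL
  obtain ⟨g, hg, hgL⟩ := (h L).2 hL
  refine ⟨fun x => bif g x then interval 1 else interval 2,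
    PT.ite' hg (PT.const _) (PT.const _), fun x => ?_, fun x => ?_⟩
  · show Valid (bif g x then interval 1 else interval 2)
    cases g x
    · exact valid_interval two_pos
    · exact valid_interval one_pos
  · show x ∈ L ↔ Yes γ (bif g x then interval 1 else interval 2)
    rw [← hgL x]
    cases g x
    · exact iff_of_false (by simp) (not_yes_interval γ hγ1)
    · exact iff_of_true rfl (yes_interval γ hγ1)

end Pool.Agent.Results.MP_4249f6_lc.ParallelotopeNPHard
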